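import Pool.Agent.TH612.GS.Stm3

set_option autoImplicit false

/-! Job 5233 (helper612, project GF): the twisted integrals with a small twist. -/

namespace Pool.Agent.TH542.GF

open Complex Filter Topology MeasureTheory Set
open Pool.Agent.TH612.CF
open Pool.Agent.TH612.GS
open Pool.Agent.W182.KO hiding ee SS_summable

noncomputable section

variable {k : ℕ}

/-- the function of the contour integral -/
def Gm (α : Fin k → ℝ) (m : ℕ) (s : ℂ) : ℂ :=
  (∏ j, riemannZeta (s + I * α j)) * (m : ℂ) ^ (s - 1 / 2)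

lemma Gm_left (α : Fin k → ℝ) (m : ℕ) (t : ℝ) :
    Gm α m (((1 / 2 : ℝ) : ℂ) + t * I) = AA α t * (m : ℂ) ^ (I * (t : ℂ)) := by
  unfold Gm AA z
  congr 1
  · refine Finset.prod_congr rfl fun j _ => ?_
    congr 1
    push_cast
    ring
  · congr 1
    push_cast
    ring

lemma Gm_right (α : Fin k → ℝ) (m : ℕ) (η t : ℝ) :
    Gm α m (((1 + η : ℝ) : ℂ) + t * I) =
      (∏ j, riemannZeta (1 + η + I * (t + α j))) * (m : ℂ) ^ (1 / 2 + η + I * t : ℂ) := by
  unfold Gm
  congr 1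
  · refine Finset.prod_congr rfl fun j _ => ?_
    congr 1
    push_cast
    ring
  · congr 1
    push_cast
    ring

lemma Gm_norm_le (α : Fin k → ℝ) (m : ℕ) (hm : 1 ≤ m) (hk : k ≤ 4) (x y M : ℝ) (hM : 1 ≤ M)
    (h : ∀ j, ‖riemannZeta (x + I * ((y + α j : ℝ) : ℂ))‖ ≤ M) :
    ‖Gm α m ((x : ℂ) + y * I)‖ ≤ M ^ 4 * (m : ℝ) ^ (x - 1 / 2) := by
  unfold Gm
  rw [norm_mul, norm_prod, Complex.norm_natCast_cpow_of_pos (by omega)]
  have e1 : ((x : ℂ) + y * I - 1 / 2).re = x - 1 / 2 := by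
    simp
  rw [e1]
  refine mul_le_mul_of_nonneg_right ?_ (by positivity)
  have e2 : ∀ j ∈ (Finset.univ : Finset (Fin k)),
      ‖riemannZeta ((x : ℂ) + y * I + I * α j)‖ ≤ M := by
    intro j _
    have e3 : (x : ℂ) + y * I + I * α j = x + I * ((y + α j : ℝ) : ℂ) := by
      push_cast; ring
    rw [e3]
    exact h j
  refine (Finset.prod_le_prod (fun j _ => norm_nonneg _) e2).trans ?_
  rw [Finset.prod_const, Finset.card_univ, Fintype.card_fin]
  exact pow_le_pow_right₀ hM hk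

lemma AA_cont (α : Fin k → ℝ) : Continuous (AA α) := by
  unfold AA
  exact continuous_finsetProd _ fun j _ => z_cont.comp (by fun_prop)

lemma mcp_cont (m : ℕ) (hm : 1 ≤ m) : Continuous fun t : ℝ => (m : ℂ) ^ (I * (t : ℂ)) := by
  have hm0 : (m : ℂ) ≠ 0 := by exact_mod_cast (by omega : m ≠ 0)
  exact Continuous.const_cpow (by fun_prop) (Or.inl hm0)

lemma mcp_norm (m : ℕ) (hm : 1 ≤ m) (t : ℝ) : ‖(m : ℂ) ^ (I * (t : ℂ))‖ = 1 := by
  rw [Complex.norm_natCast_cpow_of_pos (by omega)]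
  simp

lemma Gm_diff (α : Fin k → ℝ) (m : ℕ) (hm : 1 ≤ m) (s : ℂ) (hs : ∀ j, 0 < s.im + α j) :
    DifferentiableAt ℂ (Gm α m) s := by
  have hm0 : (m : ℂ) ≠ 0 := by exact_mod_cast (by omega : m ≠ 0)
  unfold Gm
  refine DifferentiableAt.mul ?_ ?_
  · refine DifferentiableAt.fun_finsetProd fun j _ => ?_
    have h1 : s + I * α j ≠ 1 := by
      intro h
      have := congrArg Complex.im h
      simp at this
      have := hs j
      linarith
    exact (differentiableAt_riemannZeta h1).comp s (by fun_prop)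
  · exact DifferentiableAt.const_cpow (by fun_prop) (Or.inl hm0)

theorem t_TW (hST : S_ST) (hDS : S_DS) : S_TW := by
  intro k α hk
  obtain ⟨C1, T1, hC1, hT1, hζ⟩ := hST (1 / 100) (by norm_num)
  obtain ⟨C2, hC2, hds⟩ := hDS k (1 / 100) (by norm_num) (by norm_num)
  obtain ⟨D, hD0, hD⟩ := tau_ptw k (κ := 1 / 2) (by norm_num)
  set A : ℝ := ∑ j, |α j| with hAdef
  have hA : ∀ j, |α j| ≤ A := fun j =>
    Finset.single_le_sum (f := fun j => |α j|) (fun _ _ => abs_nonneg _) (Finset.mem_univ j)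
  have hA0 : 0 ≤ A := Finset.sum_nonneg fun _ _ => abs_nonneg _
  set a : ℝ := A + T1 + 1 with ha
  have ha0 : 0 < a := by linarith
  obtain ⟨K, hK⟩ := isCompact_Icc.exists_bound_of_continuousOn (s := Icc (0 : ℝ) a)
    (AA_cont α).continuousOn
  have hK0 : 0 ≤ K := (norm_nonneg _).trans (hK 0 ⟨le_rfl, ha0.le⟩)
  set c : ℝ := max C1 1 with hc
  have hc1 : 1 ≤ c := le_max_right _ _
  have hcC : C1 ≤ c := le_max_left _ _
  refine ⟨a * K + a * D + C2 + 2 * (2 * c) ^ 4, a + A + 2, by positivity, by linarith, ?_⟩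
  intro T S m hT hS0 hST' hm hmT
  have hT1' : 1 ≤ T := by linarith
  have hTpos : 0 < T := by linarith
  have hm1 : (1 : ℝ) ≤ m := by exact_mod_cast hm
  have hm0 : (0 : ℝ) < m := by linarith
  set X : ℂ := tau (fun j => -(I * (α j : ℂ))) m * (m : ℂ) ^ (-(1 / 2) : ℂ) with hX
  have hXn : ‖X‖ ≤ D := by
    have e1 : (fun j => -(I * (α j : ℂ))) = fun j => -((α j : ℂ) * I) := by
      funext j; ring
    rw [hX, e1, norm_mul, Complex.norm_natCast_cpow_of_pos (by omega)]
    have e2 : (-(1 / 2) : ℂ).re = -(1 / 2 : ℝ) := by norm_num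
    rw [e2]
    have e3 := hD α m
    calc ‖tau (fun j => -((α j : ℂ) * I)) m‖ * (m : ℝ) ^ (-(1 / 2 : ℝ))
        ≤ (D * (m : ℝ) ^ (1 / 2 : ℝ)) * (m : ℝ) ^ (-(1 / 2 : ℝ)) :=
          mul_le_mul_of_nonneg_right e3 (by positivity)
      _ = D := by
          rw [mul_assoc, ← Real.rpow_add hm0]; norm_num
  have hTp : 1 ≤ T ^ (9 / 10 : ℝ) := Real.one_le_rpow hT1' (by norm_num)
  -- integrals over initial segments
  have hint : ∀ b c' : ℝ, IntervalIntegrable (fun t : ℝ => AA α t * (m : ℂ) ^ (I * (t : ℂ)))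
      volume b c' := fun b c' => ((AA_cont α).mul (mcp_cont m hm)).intervalIntegrable _ _
  have hini : ∀ b : ℝ, 0 ≤ b → b ≤ a →
      ‖∫ t in (0:ℝ)..b, AA α t * (m : ℂ) ^ (I * (t : ℂ))‖ ≤ a * K := by
    intro b hb hba
    have h1 : ‖∫ t in (0:ℝ)..b, AA α t * (m : ℂ) ^ (I * (t : ℂ))‖ ≤ K * |b - 0| := by
      refine intervalIntegral.norm_integral_le_of_norm_le_const fun t ht => ?_
      rw [uIoc_of_le hb] at ht
      rw [norm_mul, mcp_norm m hm, mul_one]
      exact hK t ⟨ht.1.le, ht.2.trans hba⟩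
    rw [sub_zero, abs_of_nonneg hb] at h1
    calc _ ≤ K * b := h1
      _ ≤ K * a := mul_le_mul_of_nonneg_left hba hK0
      _ = a * K := mul_comm _ _
  have hbig : ∀ y : ℝ, 0 ≤ y → y ≤ a * K + a * D + C2 + 2 * (2 * c) ^ 4 →
      y ≤ (a * K + a * D + C2 + 2 * (2 * c) ^ 4) * T ^ (9 / 10 : ℝ) := by
    intro y _ hy
    refine hy.trans ?_
    have : 0 ≤ a * K + a * D + C2 + 2 * (2 * c) ^ 4 := by positivity
    nlinarith
  rcases le_total S a with hSa | hSa
  · refine hbig _ (norm_nonneg _) ?_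
    unfold cI
    refine (norm_sub_le _ _).trans ?_
    have h1 := hini S hS0 hSa
    have h2 : ‖(S : ℂ) * X‖ ≤ a * D := by
      rw [norm_mul, Complex.norm_real, Real.norm_of_nonneg hS0]
      exact mul_le_mul hSa hXn (norm_nonneg _) ha0.le
    have h3 : 0 ≤ C2 + 2 * (2 * c) ^ 4 := by positivity
    linarith
  · -- the long range
    -- the bound on horizontal sides
    have hexp1 : (2 * T) ^ (1 / 6 + 1 / 100 : ℝ) ≤ 2 * T ^ (1 / 6 + 1 / 100 : ℝ) := by
      rw [Real.mul_rpow (by norm_num) hTpos.le]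
      refine mul_le_mul_of_nonneg_right ?_ (by positivity)
      calc (2 : ℝ) ^ (1 / 6 + 1 / 100 : ℝ) ≤ 2 ^ (1 : ℝ) :=
            Real.rpow_le_rpow_of_exponent_le (by norm_num) (by norm_num)
        _ = 2 := Real.rpow_one 2
    have hexp2 : (2 * T) ^ (1 / 14 + 1 / 100 : ℝ) ≤ 2 * T ^ (1 / 14 + 1 / 100 : ℝ) := by
      rw [Real.mul_rpow (by norm_num) hTpos.le]
      refine mul_le_mul_of_nonneg_right ?_ (by positivity)
      calc (2 : ℝ) ^ (1 / 14 + 1 / 100 : ℝ) ≤ 2 ^ (1 : ℝ) :=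
            Real.rpow_le_rpow_of_exponent_le (by norm_num) (by norm_num)
        _ = 2 := Real.rpow_one 2
    have hmp : ∀ x e : ℝ, 0 ≤ x → 7 / 8 * x ≤ e → (m : ℝ) ^ x ≤ T ^ e := by
      intro x e hx he
      calc (m : ℝ) ^ x ≤ (T ^ (7 / 8 : ℝ)) ^ x := Real.rpow_le_rpow hm0.le hmT hx
        _ = T ^ (7 / 8 * x) := by rw [← Real.rpow_mul hTpos.le]
        _ ≤ T ^ e := Real.rpow_le_rpow_of_exponent_le hT1' he
    have hG : ∀ x y : ℝ, 1 / 2 ≤ x → x ≤ 1 + 1 / 100 → a ≤ y → y ≤ T →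
        ‖Gm α m ((x : ℂ) + y * I)‖ ≤ (2 * c) ^ 4 * T ^ (9 / 10 : ℝ) := by
      intro x y hx1 hx2 hy1 hy2
      have hya : ∀ j, T1 ≤ y + α j ∧ y + α j ≤ 2 * T := by
        intro j
        have h1 := hA j
        rw [abs_le] at h1
        constructor
        · linarith [h1.1]
        · linarith [h1.2]
      rcases le_total x (5 / 7) with hx | hx
      · have hM1 : 1 ≤ c * (2 * T ^ (1 / 6 + 1 / 100 : ℝ)) := by
          have : 1 ≤ T ^ (1 / 6 + 1 / 100 : ℝ) := Real.one_le_rpow hT1' (by norm_num)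
          nlinarith
        refine (Gm_norm_le α m hm hk x y (c * (2 * T ^ (1 / 6 + 1 / 100 : ℝ))) hM1 ?_).trans ?_
        · intro j
          obtain ⟨h1, h2⟩ := hya j
          have h3 := (hζ x (y + α j) h1 (by linarith)).1 hx1
          refine h3.trans ?_
          refine mul_le_mul hcC ?_ (Real.rpow_nonneg (by linarith) _) (by linarith)
          refine le_trans ?_ hexp1
          exact Real.rpow_le_rpow (by linarith) h2 (by norm_num)
        · calc (c * (2 * T ^ (1 / 6 + 1 / 100 : ℝ))) ^ 4 * (m : ℝ) ^ (x - 1 / 2)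
              ≤ (c * (2 * T ^ (1 / 6 + 1 / 100 : ℝ))) ^ 4 * T ^ (3 / 16 : ℝ) :=
                mul_le_mul_of_nonneg_left (hmp _ _ (by linarith) (by linarith)) (by positivity)
            _ = (2 * c) ^ 4 * (T ^ (4 * (1 / 6 + 1 / 100) : ℝ) * T ^ (3 / 16 : ℝ)) := by
                have : T ^ (4 * (1 / 6 + 1 / 100) : ℝ) = (T ^ (1 / 6 + 1 / 100 : ℝ)) ^ 4 := by
                  rw [← Real.rpow_natCast, ← Real.rpow_mul hTpos.le]; norm_num
                rw [this]; ring
            _ ≤ (2 * c) ^ 4 * T ^ (9 / 10 : ℝ) := by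
                refine mul_le_mul_of_nonneg_left ?_ (by positivity)
                rw [← Real.rpow_add hTpos]
                exact Real.rpow_le_rpow_of_exponent_le hT1' (by norm_num)
      · have hM1 : 1 ≤ c * (2 * T ^ (1 / 14 + 1 / 100 : ℝ)) := by
          have : 1 ≤ T ^ (1 / 14 + 1 / 100 : ℝ) := Real.one_le_rpow hT1' (by norm_num)
          nlinarith
        refine (Gm_norm_le α m hm hk x y (c * (2 * T ^ (1 / 14 + 1 / 100 : ℝ))) hM1 ?_).trans ?_
        · intro j
          obtain ⟨h1, h2⟩ := hya j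
          have h3 := (hζ x (y + α j) h1 (by linarith)).2 hx
          refine h3.trans ?_
          refine mul_le_mul hcC ?_ (Real.rpow_nonneg (by linarith) _) (by linarith)
          refine le_trans ?_ hexp2
          exact Real.rpow_le_rpow (by linarith) h2 (by norm_num)
        · calc (c * (2 * T ^ (1 / 14 + 1 / 100 : ℝ))) ^ 4 * (m : ℝ) ^ (x - 1 / 2)
              ≤ (c * (2 * T ^ (1 / 14 + 1 / 100 : ℝ))) ^ 4 * T ^ (1 / 2 : ℝ) :=
                mul_le_mul_of_nonneg_left (hmp _ _ (by linarith) (by linarith)) (by positivity)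
            _ = (2 * c) ^ 4 * (T ^ (4 * (1 / 14 + 1 / 100) : ℝ) * T ^ (1 / 2 : ℝ)) := by
                have : T ^ (4 * (1 / 14 + 1 / 100) : ℝ) = (T ^ (1 / 14 + 1 / 100 : ℝ)) ^ 4 := by
                  rw [← Real.rpow_natCast, ← Real.rpow_mul hTpos.le]; norm_num
                rw [this]; ring
            _ ≤ (2 * c) ^ 4 * T ^ (9 / 10 : ℝ) := by
                refine mul_le_mul_of_nonneg_left ?_ (by positivity)
                rw [← Real.rpow_add hTpos]
                exact Real.rpow_le_rpow_of_exponent_le hT1' (by norm_num)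
    have hH : ∀ y : ℝ, a ≤ y → y ≤ T →
        ‖∫ x in (1 / 2 : ℝ)..(1 + 1 / 100 : ℝ), Gm α m ((x : ℂ) + y * I)‖ ≤
          (2 * c) ^ 4 * T ^ (9 / 10 : ℝ) := by
      intro y hy1 hy2
      have h1 : ‖∫ x in (1 / 2 : ℝ)..(1 + 1 / 100 : ℝ), Gm α m ((x : ℂ) + y * I)‖ ≤
          ((2 * c) ^ 4 * T ^ (9 / 10 : ℝ)) * |(1 + 1 / 100 : ℝ) - 1 / 2| := by
        refine intervalIntegral.norm_integral_le_of_norm_le_const fun x hx => ?_
        rw [uIoc_of_le (by norm_num)] at hx
        exact hG x y hx.1.le hx.2 hy1 hy2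
      refine h1.trans ?_
      have h2 : |(1 + 1 / 100 : ℝ) - 1 / 2| ≤ 1 := by
        rw [abs_of_pos (by norm_num)]; norm_num
      have h3 : 0 ≤ (2 * c) ^ 4 * T ^ (9 / 10 : ℝ) := by positivity
      calc _ ≤ ((2 * c) ^ 4 * T ^ (9 / 10 : ℝ)) * 1 := mul_le_mul_of_nonneg_left h2 h3
        _ = _ := mul_one _
    have hrect := Complex.integral_boundary_rect_eq_zero_of_differentiableOn (Gm α m)
      (((1 / 2 : ℝ) : ℂ) + a * I) (((1 + 1 / 100 : ℝ) : ℂ) + S * I) (by
        intro s hs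
        have h1 := hs.2
        simp only [Complex.add_im, Complex.ofReal_im, Complex.mul_im, Complex.ofReal_re,
          Complex.I_im, Complex.I_re, mul_one, mul_zero, add_zero, zero_add] at h1
        have h2 : a ≤ s.im := by
          rw [Set.mem_preimage, uIcc_of_le hSa] at h1
          exact h1.1
        refine (Gm_diff α m hm s fun j => ?_).differentiableWithinAt
        have h3 := hA j
        rw [abs_le] at h3
        linarith [h3.1])
    simp only [Complex.add_re, Complex.add_im, Complex.ofReal_im, Complex.mul_im, Complex.mul_re,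
      Complex.ofReal_re, Complex.I_im, Complex.I_re, mul_one, mul_zero, add_zero, zero_add,
      sub_self, smul_eq_mul] at hrect
    set Ha : ℂ := ∫ x in (1 / 2 : ℝ)..(1 + 1 / 100 : ℝ), Gm α m ((x : ℂ) + a * I) with hHa
    set HS : ℂ := ∫ x in (1 / 2 : ℝ)..(1 + 1 / 100 : ℝ), Gm α m ((x : ℂ) + S * I) with hHS
    set VR : ℂ := ∫ y in a..S, Gm α m (((1 + 1 / 100 : ℝ) : ℂ) + y * I) with hVR
    set VL : ℂ := ∫ y in a..S, Gm α m (((1 / 2 : ℝ) : ℂ) + y * I) with hVL
    have hVL' : VL = VR - I * (Ha - HS) := by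
      have h1 : I * VL = Ha - HS + I * VR := by linear_combination -hrect
      have h2 : I * I = -1 := Complex.I_mul_I
      linear_combination (-I) * h1 + (VL - VR) * h2
    have hR : ‖VR - ((S : ℂ) - a) * X‖ ≤ C2 * T ^ (9 / 10 : ℝ) := by
      have h1 := hds α a S m hSa hm
      have h2 : VR = ∫ t in a..S, (∏ j, riemannZeta (1 + ((1 / 100 : ℝ) : ℂ) + I * (t + α j))) *
          (m : ℂ) ^ (1 / 2 + ((1 / 100 : ℝ) : ℂ) + I * t : ℂ) := by
        rw [hVR]
        exact intervalIntegral.integral_congr fun t _ => Gm_right α m (1 / 100) t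
      rw [h2]
      refine h1.trans ?_
      refine mul_le_mul_of_nonneg_left ?_ hC2.le
      exact hmp _ _ (by norm_num) (by norm_num)
    have hL : VL = ∫ t in a..S, AA α t * (m : ℂ) ^ (I * (t : ℂ)) := by
      rw [hVL]
      exact intervalIntegral.integral_congr fun t _ => Gm_left α m t
    have hsplit : cI α S m = (∫ t in (0:ℝ)..a, AA α t * (m : ℂ) ^ (I * (t : ℂ))) + VL := by
      rw [hL]
      unfold cI
      exact (intervalIntegral.integral_add_adjacent_intervals (hint 0 a) (hint a S)).symm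
    have hkey : cI α S m - S * X = (∫ t in (0:ℝ)..a, AA α t * (m : ℂ) ^ (I * (t : ℂ))) +
        (VR - ((S : ℂ) - a) * X) - I * (Ha - HS) - a * X := by
      rw [hsplit, hVL']; ring
    rw [hkey]
    have n1 := hini a ha0.le le_rfl
    have n2 : ‖I * (Ha - HS)‖ ≤ 2 * ((2 * c) ^ 4 * T ^ (9 / 10 : ℝ)) := by
      rw [norm_mul, Complex.norm_I, one_mul]
      refine (norm_sub_le _ _).trans ?_
      have h1 : ‖Ha‖ ≤ (2 * c) ^ 4 * T ^ (9 / 10 : ℝ) := hH a le_rfl (by linarith)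
      have h2 : ‖HS‖ ≤ (2 * c) ^ 4 * T ^ (9 / 10 : ℝ) := hH S hSa hST'
      linarith
    have n3 : ‖(a : ℂ) * X‖ ≤ a * D := by
      rw [norm_mul, Complex.norm_real, Real.norm_of_nonneg ha0.le]
      exact mul_le_mul_of_nonneg_left hXn ha0.le
    have n4 : ‖(∫ t in (0:ℝ)..a, AA α t * (m : ℂ) ^ (I * (t : ℂ))) +
        (VR - ((S : ℂ) - a) * X) - I * (Ha - HS) - a * X‖ ≤
        a * K + C2 * T ^ (9 / 10 : ℝ) + 2 * ((2 * c) ^ 4 * T ^ (9 / 10 : ℝ)) + a * D := by
      refine (norm_sub_le _ _).trans (add_le_add ((norm_sub_le _ _).trans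
        (add_le_add ((norm_add_le _ _).trans (add_le_add n1 hR)) n2)) n3)
    refine n4.trans ?_
    have h5 : a * K ≤ a * K * T ^ (9 / 10 : ℝ) := le_mul_of_one_le_right (by positivity) hTp
    have h6 : a * D ≤ a * D * T ^ (9 / 10 : ℝ) := le_mul_of_one_le_right (by positivity) hTp
    linarith

end

end Pool.Agent.TH542.GF
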